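import Mathlib

namespace Pool.Agent.Results.MP_db21b4_co.FiveVertices

open SimpleGraph Finset

/-- The bowtie with centre `0` and triangles `012`, `034`. -/
def bowtie : SimpleGraph (Fin 5) where
  Adj a b := a ≠ b ∧ (a = 0 ∨ b = 0 ∨ (a.val + 1) / 2 = (b.val + 1) / 2)
  symm := ⟨by decide⟩
  loopless := ⟨by decide⟩

/-- `D` is an orientation of `G`: every edge gets exactly one direction, nothing else. -/
def IsOrientation {n : ℕ} (G : SimpleGraph (Fin n)) (D : Fin n → Fin n → Bool) : Prop :=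
  (∀ a b, G.Adj a b ↔ (D a b = true ∨ D b a = true)) ∧ ∀ a b, ¬ (D a b = true ∧ D b a = true)

/-- The number of orientations of `G` with no copy of the oriented graph `B`. -/
noncomputable def freeCount {n : ℕ} (G : SimpleGraph (Fin n)) (B : Fin 5 → Fin 5 → Bool) : ℕ :=
  {D | IsOrientation G D ∧ ¬ ∃ φ : Fin 5 ↪ Fin n, ∀ a b, B a b = true → D (φ a) (φ b) = true}.ncard

instance : DecidableRel bowtie.Adj := fun a b => by unfold bowtie; infer_instance

def L : List ℕ :=
  [15928330, 14912530, 14879770, 15925420, 14909620, 14876860, 15895840, 15892870,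
   14844340, 14844310, 13864480, 12783160, 13861510, 13828780, 13828750, 12812980,
   12812950, 12780220, 12780190, 13799200, 12750610, 13796230, 12747700, 12747670,
   15837190, 14789650, 14788630, 15836320, 15739180, 14691640, 14690620, 15738250,
   14689720, 14689690, 13741600, 12692020, 13739680, 12691090, 13643530, 13642540,
   13642510, 12595000, 12594970, 12593980, 12593950, 13641610, 12593080, 12593050,
   11782150, 11750410, 11749390, 10734610, 10733590, 10701850, 10700830, 11781280,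
   10699960, 11717920, 10668340, 11716000, 10667410, 9686560, 9652780, 9684640,
   9651850, 9621280, 9620230, 9619360, 11659270, 10611730, 10610710, 11658400,
   10608820, 11561260, 10513720, 10512700, 11560330, 11559340, 11559310, 10511800,
   10511770, 10510780, 10510750, 9563680, 9561760, 9560710, 9465610, 9464620,
   9464590, 9463690, 9462700, 9462670, 8064010, 7048210, 7015450, 8061100,
   7045300, 7012540, 8031520, 6950200, 8028550, 7995820, 7995790, 6980020,
   6979990, 6947260, 6947230, 6000160, 5997190, 5964460, 5964430, 5934880,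
   5902090, 5931910, 5899180, 5899150, 7972870, 7941130, 7940110, 6925330,
   6924310, 6892570, 6891550, 7972000, 6890680, 7908640, 6859060, 7906720,
   6858130]

def dec (m : ℕ) : Fin 5 → Fin 5 → Bool := fun a b => m.testBit (5 * a.val + b.val)

lemma L_nodup : (L.map dec).Nodup := by
  have h1 : L.Nodup := by decide +kernel
  have h2 : ∀ m ∈ L, m < 2 ^ 25 := by decide +kernel
  refine List.Nodup.map_on ?_ h1
  intro x hx y hy h
  apply Nat.eq_of_testBit_eq
  intro i
  by_cases hi : i < 25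
  · have := congrFun (congrFun h ⟨i / 5, by omega⟩) ⟨i % 5, by omega⟩
    simpa only [dec, Nat.div_add_mod] using this
  · have p : 2 ^ 25 ≤ 2 ^ i := Nat.pow_le_pow_right (by norm_num) (by omega)
    rw [Nat.testBit_lt_two_pow ((h2 x hx).trans_le p), Nat.testBit_lt_two_pow ((h2 y hy).trans_le p)]

def S : List (List (Fin 5)) := [[0, 1, 2, 3, 4], [0, 1, 3, 2, 4], [0, 1, 4, 2, 3], [1, 0, 2, 3, 4], [1, 0, 3, 2, 4], [1, 0, 4, 2, 3], [2, 0, 1, 3, 4], [2, 0, 3, 1, 4], [2, 0, 4, 1, 3], [3, 0, 1, 2, 4], [3, 0, 2, 1, 4], [3, 0, 4, 1, 2], [4, 0, 1, 2, 3], [4, 0, 2, 1, 3], [4, 0, 3, 1, 2]]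

set_option synthInstance.maxSize 4000 in
lemma L_ok : ∀ m ∈ L, (∀ a b, a ≠ b ↔ (dec m a b = true ∨ dec m b a = true)) ∧
    (∀ a b, ¬ (dec m a b = true ∧ dec m b a = true)) ∧
    ∀ c, (univ.filter (fun a => dec m a c = true)).card ≠ 3 := by decide +kernel

set_option synthInstance.maxSize 4000 in
lemma avoid0 : ∀ x y z w : Fin 5, x ≤ y → z ≤ w → ∃ l ∈ S, ∀ a b, bowtie.Adj a b →
    ¬ (l.getD a.val 0 = x ∧ l.getD b.val 0 = y) ∧ ¬ (l.getD a.val 0 = z ∧ l.getD b.val 0 = w) := by
  decide +kernel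

lemma S_inj : ∀ l ∈ S, Function.Injective (fun a : Fin 5 => l.getD a.val 0) := by decide +kernel

lemma avoid (e1 e2 : Sym2 (Fin 5)) : ∃ σ : Fin 5 ↪ Fin 5, ∀ a b, bowtie.Adj a b →
    s(σ a, σ b) ≠ e1 ∧ s(σ a, σ b) ≠ e2 := by
  have key : ∀ e : Sym2 (Fin 5), ∃ x y, x ≤ y ∧ e = s(x, y) := by
    intro e
    induction e using Sym2.ind with
    | h a b =>
      rcases le_total a b with h | h
      · exact ⟨a, b, h, rfl⟩
      · exact ⟨b, a, h, Sym2.eq_swap⟩
  obtain ⟨x, y, h1, rfl⟩ := key e1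
  obtain ⟨z, w, h2, rfl⟩ := key e2
  obtain ⟨l, hl, h⟩ := avoid0 x y z w h1 h2
  refine ⟨⟨_, S_inj l hl⟩, fun a b hab => ?_⟩
  have p := h a b hab
  have q := h b a hab.symm
  simp only [Function.Embedding.coeFn_mk, ne_eq, Sym2.eq_iff]
  tauto

lemma ex_le : extremalNumber 5 bowtie ≤ 7 := by
  have : extremalNumber (Fintype.card (Fin 5)) bowtie ≤ 7 := by
    rw [extremalNumber_le_iff]
    intro G _ hG
    by_contra h
    let M := (⊤ : SimpleGraph (Fin 5)).edgeFinset \ G.edgeFinset
    have hM : M.card ≤ 2 := by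
      rw [card_sdiff_of_subset (edgeFinset_mono le_top), card_edgeFinset_top_eq_card_choose_two]
      have : (Fintype.card (Fin 5)).choose 2 = 10 := by decide
      omega
    obtain ⟨e1, e2, he⟩ : ∃ e1 e2, ∀ e ∈ M, e = e1 ∨ e = e2 := by
      have : M.card = 0 ∨ M.card = 1 ∨ M.card = 2 := by omega
      rcases this with h | h | h
      · rw [card_eq_zero] at h
        exact ⟨s(0, 0), s(0, 0), by simp [h]⟩
      · obtain ⟨a, h⟩ := card_eq_one.1 h
        exact ⟨a, a, by simp [h]⟩
      · obtain ⟨a, b, -, h⟩ := card_eq_two.1 h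
        exact ⟨a, b, by simp [h]⟩
    obtain ⟨σ, hσ⟩ := avoid e1 e2
    refine hG ⟨⟨⟨σ, ?_⟩, σ.injective⟩⟩
    intro a b hab
    by_contra hn
    have := he s(σ a, σ b) (by simp [M, hn, hab.ne])
    have := hσ a b hab
    tauto
  simpa using this

lemma ncard_list {α : Type} (l : List α) (h : l.Nodup) : {D | D ∈ l}.ncard = l.length := by
  classical
  rw [← List.coe_toFinset, Set.ncard_coe_finset, List.toFinset_card_of_nodup h]

lemma fin (x y : ℕ) (h : x ≤ 7) (h4 : 129 ≤ y) : 2 ^ x < y :=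
  lt_of_le_of_lt (Nat.pow_le_pow_right (by norm_num) h) (lt_of_lt_of_le (by norm_num) h4)

theorem result (B : Fin 5 → Fin 5 → Bool) (hB : IsOrientation bowtie B)
    (h3 : (univ.filter (fun a => B a 0 = true)).card = 3) :
    ∃ (n : ℕ) (G : SimpleGraph (Fin n)), 2 ^ extremalNumber n bowtie < freeCount G B := by
  refine ⟨5, ⊤, ?_⟩
  have h2 : {D | D ∈ L.map dec}.ncard = 129 := by
    rw [ncard_list _ L_nodup, List.length_map]
    decide +kernel
  have h4 : 129 ≤ freeCount (⊤ : SimpleGraph (Fin 5)) B := by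
    rw [← h2]
    apply Set.ncard_le_ncard _ (Set.toFinite _)
    intro D hD
    obtain ⟨m, hm, rfl⟩ := List.mem_map.1 hD
    obtain ⟨a1, a2, a3⟩ := L_ok m hm
    refine ⟨⟨a1, a2⟩, ?_⟩
    rintro ⟨φ, hφ⟩
    apply a3 (φ 0)
    rw [← h3]
    symm
    apply card_bij (fun a _ => φ a)
    · intro a ha
      simp only [mem_filter, mem_univ, true_and] at ha ⊢
      exact hφ _ _ ha
    · intro a _ b _ h
      exact φ.injective h
    · intro c hc
      simp only [mem_filter, mem_univ, true_and] at hc ⊢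
      obtain ⟨a, rfl⟩ := Finite.injective_iff_surjective.1 φ.injective c
      refine ⟨a, ?_, rfl⟩
      have ha : a ≠ 0 := by
        rintro rfl
        exact a2 _ _ ⟨hc, hc⟩
      rcases (hB.1 a 0).1 ⟨ha, Or.inr (Or.inl rfl)⟩ with h | h
      · exact h
      · exact absurd ⟨hc, hφ _ _ h⟩ (a2 _ _)
  exact fin _ _ ex_le h4

end Pool.Agent.Results.MP_db21b4_co.FiveVertices
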